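import Pool.Agent.X184.SS.Stm

set_option autoImplicit false

namespace Pool.Agent.X134.SS

open Finset Pool.Agent.X184.SS

theorem m_succ (k : ℕ) : m (k + 1) = m k ^ 4 := by
  unfold m
  rw [← pow_mul, pow_succ 4 (k + 1)]

theorem exp_ge (k : ℕ) : k + 4 ≤ 4 ^ (k + 1) := by
  induction k with
  | zero => norm_num
  | succ k ih =>
    rw [pow_succ]
    omega

theorem m_ge (k : ℕ) : 2 ^ (k + 4) ≤ m k := by
  unfold m
  exact Nat.pow_le_pow_right (by norm_num) (exp_ge k)

theorem lt_m (k : ℕ) : k < m k := by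
  have h1 := m_ge k
  have h2 : k + 4 < 2 ^ (k + 4) := Nat.lt_two_pow_self
  omega

theorem m_ge16 (k : ℕ) : 16 ≤ m k := by
  have h1 := m_ge k
  have h2 : 2 ^ 4 ≤ 2 ^ (k + 4) := Nat.pow_le_pow_right (by norm_num) (by omega)
  omega

theorem two_m_lt_succ (k : ℕ) : 2 * m k < m (k + 1) := by
  rw [m_succ]
  have h1 := m_ge16 k
  have h2 : m k ^ 4 = m k * (m k * (m k * m k)) := by ring
  rw [h2]
  nlinarith [Nat.mul_le_mul h1 h1, Nat.mul_le_mul h1 (Nat.mul_le_mul h1 h1)]

theorem m_mono : StrictMono m :=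
  strictMono_nat_of_lt_succ fun k => by
    have := two_m_lt_succ k
    have := m_ge16 k
    omega

theorem two_m_lt {k l : ℕ} (h : k < l) : 2 * m k < m l :=
  (two_m_lt_succ k).trans_le (m_mono.monotone h)

theorem mem_A {j k : ℕ} : j ∈ A k ↔ m k ≤ j ∧ j ≤ 2 * m k := by
  unfold A
  rw [Finset.mem_Ico]
  omega

theorem lt_of_lt {j k i l : ℕ} (h1 : j ∈ A k) (h2 : i ∈ A l) (h : k < l) : j < i := by
  rw [mem_A] at h1 h2
  have := two_m_lt h
  omega

theorem tv_le (x : ℕ → ℝ) (j N : ℕ) (hj : j + 1 ≤ N) :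
    |Tv x j| ≤ ∑ k ∈ range N, if j ∈ A k then |x (m k)| / (m k + 1) else 0 := by
  unfold Tv
  refine (Finset.abs_sum_le_sum_abs _ _).trans ?_
  have h1 : ∀ k, |if j ∈ A k then x (m k) / ((m k : ℝ) + 1) else 0| =
      if j ∈ A k then |x (m k)| / (m k + 1) else 0 := by
    intro k
    split_ifs
    · rw [abs_div, abs_of_pos (by positivity : (0 : ℝ) < (m k : ℝ) + 1)]
    · exact abs_zero
  rw [Finset.sum_congr rfl fun k _ => h1 k]
  refine Finset.sum_le_sum_of_subset_of_nonneg (Finset.range_mono hj) fun k _ _ => ?_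
  split_ifs
  · positivity
  · exact le_rfl

theorem sing (hU : S_UNI) (n a : ℕ) : ({a} : Finset ℕ) ∈ Sch n := by
  induction n with
  | zero => show ({a} : Finset ℕ).card ≤ 1; simp
  | succ n ih =>
    have h := hU n 1 (fun _ => {a}) (fun _ => ih) (fun i j hij => by omega)
      (fun _ b _ => by omega)
    have e : (univ : Finset (Fin 1)).biUnion (fun _ => ({a} : Finset ℕ)) = {a} := by
      ext b
      simp
    rw [e] at h
    exact h

/-- the bound for the sum over `K` -/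
theorem sum_K (hH : ∀ (n : ℕ) (F G : Finset ℕ), F ∈ Sch n → G ⊆ F → G ∈ Sch n) (hS : S_SPR)
    (hU : S_UNI) (n : ℕ) (x : ℕ → ℝ) (C : ℝ) (hx : ∀ G ∈ Sch n, ∑ j ∈ G, |x j| ≤ C)
    (R K : Finset ℕ) (hR : R ∈ Sch n) (hK : ∀ k ∈ K, ∃ h ∈ R, h ∈ A k) :
    ∑ k ∈ K, |x (m k)| ≤ 2 * C := by
  classical
  have hsing : ∀ a, |x a| ≤ C := fun a => by
    have := hx {a} (sing hU n a)
    rwa [Finset.sum_singleton] at this
  have hC : 0 ≤ C := (abs_nonneg _).trans (hsing 0)
  rcases K.eq_empty_or_nonempty with rfl | hne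
  · rw [Finset.sum_empty]
    linarith
  obtain ⟨k0, hk0⟩ : ∃ k0, k0 = K.min' hne := ⟨_, rfl⟩
  have hk0K : k0 ∈ K := hk0 ▸ K.min'_mem hne
  have hmin : ∀ k ∈ K, k0 ≤ k := fun k hk => hk0 ▸ K.min'_le k hk
  obtain ⟨K', hK'⟩ : ∃ K', K' = K.erase k0 := ⟨_, rfl⟩
  have hK'1 : ∀ k ∈ K', k ∈ K ∧ k0 < k := by
    intro k hk
    rw [hK', Finset.mem_erase] at hk
    exact ⟨hk.2, lt_of_le_of_ne (hmin k hk.2) (Ne.symm hk.1)⟩
  obtain ⟨h0, hh0, hh0A⟩ := hK k0 hk0K
  obtain ⟨g, hg⟩ : ∃ g : ℕ → ℕ, g = fun k => (R.filter (· < m k)).sup id := ⟨_, rfl⟩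
  have hg1 : ∀ k ∈ K', g k ∈ R ∧ g k < m k := by
    intro k hk
    have hne2 : (R.filter (· < m k)).Nonempty := by
      refine ⟨h0, Finset.mem_filter.2 ⟨hh0, ?_⟩⟩
      have h1 := (mem_A.1 hh0A).2
      have h2 := two_m_lt (hK'1 k hk).2
      omega
    obtain ⟨i, hi, hi2⟩ := Finset.exists_mem_eq_sup _ hne2 (id : ℕ → ℕ)
    rw [hg]
    show (R.filter (· < m k)).sup id ∈ R ∧ (R.filter (· < m k)).sup id < m k
    rw [hi2]
    exact Finset.mem_filter.1 hi
  have hg2 : ∀ k ∈ K', ∀ l ∈ K', k < l → g k < g l := by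
    intro k hk l hl hkl
    obtain ⟨h, hh, hhA⟩ := hK k (hK'1 k hk).1
    have h1 : h ≤ g l := by
      rw [hg]
      refine Finset.le_sup (f := id) (Finset.mem_filter.2 ⟨hh, ?_⟩)
      have h1 := (mem_A.1 hhA).2
      have h2 := two_m_lt hkl
      omega
    have h2 := (hg1 k hk).2
    have h3 := (mem_A.1 hhA).1
    omega
  have hg3 : ∀ k ∈ K', ∀ l ∈ K', g k < g l → k < l := by
    intro k hk l hl h
    by_contra hcon
    rcases Nat.lt_or_ge l k with h1 | h1
    · have := hg2 l hl k hk h1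
      omega
    · have : k = l := by omega
      subst this
      omega
  have hg4 : ∀ k ∈ K', ∀ l ∈ K', g k = g l → k = l := by
    intro k hk l hl h
    by_contra hcon
    rcases Nat.lt_or_gt_of_ne hcon with h1 | h1
    · have := hg2 k hk l hl h1
      omega
    · have := hg2 l hl k hk h1
      omega
  obtain ⟨f, hf⟩ : ∃ f : ℕ → ℕ, f = fun a => if h : ∃ k ∈ K', g k = a then m h.choose else a :=
    ⟨_, rfl⟩
  have hf1 : ∀ k ∈ K', f (g k) = m k := by
    intro k hk
    have hex : ∃ l ∈ K', g l = g k := ⟨k, hk, rfl⟩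
    rw [hf]
    show (if h : ∃ l ∈ K', g l = g k then m h.choose else g k) = m k
    rw [dif_pos hex]
    congr 1
    exact hg4 _ hex.choose_spec.1 k hk hex.choose_spec.2
  have hR' : K'.image g ∈ Sch n := hH n R _ hR fun a ha => by
    obtain ⟨k, hk, rfl⟩ := Finset.mem_image.1 ha
    exact (hg1 k hk).1
  have h1 := hS n (K'.image g) f hR' (by
    intro a ha b hb hab
    rw [Finset.mem_coe] at ha hb
    obtain ⟨k, hk, rfl⟩ := Finset.mem_image.1 ha
    obtain ⟨l, hl, rfl⟩ := Finset.mem_image.1 hb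
    rw [hf1 k hk, hf1 l hl]
    exact m_mono (hg3 k hk l hl hab)) (by
    intro a ha
    obtain ⟨k, hk, rfl⟩ := Finset.mem_image.1 ha
    rw [hf1 k hk]
    exact (hg1 k hk).2.le)
  have h2 : (K'.image g).image f = K'.image m := by
    rw [Finset.image_image]
    refine Finset.image_congr fun k hk => ?_
    exact hf1 k hk
  rw [h2] at h1
  have h3 := hx _ h1
  rw [Finset.sum_image fun a _ b _ h => m_mono.injective h] at h3
  have h4 : ∑ k ∈ K, |x (m k)| = |x (m k0)| + ∑ k ∈ K', |x (m k)| := by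
    rw [hK', Finset.add_sum_erase K (fun k => |x (m k)|) hk0K]
  rw [h4]
  have := hsing (m k0)
  linarith

theorem num (l : ℕ) : ((2 * (m l : ℝ) + 1) ^ 2) / ((m (l + 1) : ℝ) + 1) ≤ (1 / 2 : ℝ) ^ (l + 2) := by
  have h1 : (2 : ℝ) ^ (l + 4) ≤ m l := by exact_mod_cast m_ge l
  have e : (m (l + 1) : ℝ) = (m l : ℝ) ^ 4 := by rw [m_succ]; push_cast; rfl
  obtain ⟨P, hP⟩ : ∃ P : ℝ, P = 2 ^ l := ⟨_, rfl⟩
  have hP1 : 1 ≤ P := by rw [hP]; exact one_le_pow₀ (by norm_num)
  have h2 : 16 * P ≤ m l := by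
    rw [hP]
    calc (16 : ℝ) * 2 ^ l = 2 ^ (l + 4) := by rw [pow_add]; ring
      _ ≤ m l := h1
  obtain ⟨M, hM⟩ : ∃ M : ℝ, M = m l := ⟨_, rfl⟩
  rw [e, ← hM]
  rw [← hM] at h2
  rw [div_le_iff₀ (by positivity)]
  have e2 : (1 / 2 : ℝ) ^ (l + 2) = 1 / (4 * P) := by
    rw [hP, one_div_pow, pow_add]
    congr 1
    ring
  rw [e2, div_mul_eq_mul_div, one_mul, le_div_iff₀ (by positivity)]
  have hM16 : 16 ≤ M := by linarith
  have h3 : (2 * M + 1) ^ 2 ≤ 9 * M ^ 2 := by nlinarith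
  have h4 : 36 * P ≤ M ^ 2 := by nlinarith
  have h5 : (2 * M + 1) ^ 2 * (4 * P) ≤ 9 * M ^ 2 * (4 * P) :=
    mul_le_mul_of_nonneg_right h3 (by positivity)
  have h6 : 9 * M ^ 2 * (4 * P) ≤ M ^ 2 * M ^ 2 := by nlinarith [sq_nonneg M]
  have h7 : M ^ 2 * M ^ 2 = M ^ 4 := by ring
  linarith

theorem t_BD : S_BD := by
  intro hU hH hS hD n x C hx F hF
  classical
  have hsing : ∀ a, |x a| ≤ C := fun a => by
    have := hx {a} (sing hU n a)
    rwa [Finset.sum_singleton] at this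
  have hC : 0 ≤ C := (abs_nonneg _).trans (hsing 0)
  obtain ⟨N, hN⟩ : ∃ N, N = F.sup id + 1 := ⟨_, rfl⟩
  obtain ⟨F', hF'⟩ : ∃ F', F' = F.filter (fun j => ∃ k, j ∈ A k) := ⟨_, rfl⟩
  have hF'S : F' ∈ Sch (n + 1) := hH (n + 1) F F' hF (hF' ▸ Finset.filter_subset _ _)
  obtain ⟨R, hR, H, hFH, hHh⟩ := hD n F' hF'S
  obtain ⟨K, hK⟩ : ∃ K, K = (range N).filter (fun k => ∃ h ∈ R, h ∈ A k) := ⟨_, rfl⟩
  obtain ⟨c, hc⟩ : ∃ c : ℕ → ℕ, c = fun k => (F.filter (· ∈ A k)).card := ⟨_, rfl⟩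
  -- the sum
  have h1 : ∑ j ∈ F, |Tv x j| ≤ ∑ k ∈ range N, (c k : ℝ) / (m k + 1) * |x (m k)| := by
    calc ∑ j ∈ F, |Tv x j|
        ≤ ∑ j ∈ F, ∑ k ∈ range N, (if j ∈ A k then |x (m k)| / (m k + 1) else 0) :=
          Finset.sum_le_sum fun j hj => tv_le x j N (by
            have : j ≤ F.sup id := Finset.le_sup (f := id) hj
            omega)
      _ = ∑ k ∈ range N, ∑ j ∈ F, (if j ∈ A k then |x (m k)| / (m k + 1) else 0) :=
          Finset.sum_comm
      _ = ∑ k ∈ range N, (c k : ℝ) / (m k + 1) * |x (m k)| := by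
          refine Finset.sum_congr rfl fun k _ => ?_
          rw [← Finset.sum_filter, Finset.sum_const, nsmul_eq_mul, hc]
          ring
  refine h1.trans ?_
  rw [← Finset.sum_filter_add_sum_filter_not (range N) (fun k => ∃ h ∈ R, h ∈ A k), ← hK]
  have hpart1 : ∑ k ∈ K, (c k : ℝ) / (m k + 1) * |x (m k)| ≤ 2 * C := by
    refine le_trans (Finset.sum_le_sum fun k _ => ?_)
      (sum_K hH hS hU n x C hx R K hR fun k hk => by
        rw [hK, Finset.mem_filter] at hk
        exact hk.2)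
    have h2 : (c k : ℝ) ≤ m k + 1 := by
      have h3 : c k ≤ (A k).card := by
        rw [hc]
        exact Finset.card_le_card fun j hj => (Finset.mem_filter.1 hj).2
      have h4 : (A k).card = m k + 1 := by
        unfold A
        rw [Nat.card_Ico]
        omega
      rw [h4] at h3
      exact_mod_cast h3
    have h3 : (c k : ℝ) / (m k + 1) ≤ 1 := by
      rw [div_le_one (by positivity)]
      exact h2
    calc (c k : ℝ) / (m k + 1) * |x (m k)| ≤ 1 * |x (m k)| :=
          mul_le_mul_of_nonneg_right h3 (abs_nonneg _)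
      _ = |x (m k)| := one_mul _
  have hpart2 : ∑ k ∈ (range N).filter (fun k => ¬ ∃ h ∈ R, h ∈ A k),
      (c k : ℝ) / (m k + 1) * |x (m k)| ≤ C := by
    have hterm : ∀ k ∈ (range N).filter (fun k => ¬ ∃ h ∈ R, h ∈ A k),
        (c k : ℝ) / (m k + 1) * |x (m k)| ≤ (1 / 2 : ℝ) ^ (k + 1) * C := by
      intro k hk
      have hkR := (Finset.mem_filter.1 hk).2
      refine mul_le_mul ?_ (hsing _) (abs_nonneg _) (by positivity)
      have key : ∀ j ∈ F.filter (· ∈ A k), ∃ h ∈ R, j ∈ H h ∧ ∃ l, l < k ∧ h ≤ 2 * m l := by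
        intro j hj
        obtain ⟨hjF, hjA⟩ := Finset.mem_filter.1 hj
        have hjF' : j ∈ F' := by
          rw [hF']
          exact Finset.mem_filter.2 ⟨hjF, k, hjA⟩
        rw [hFH, Finset.mem_biUnion] at hjF'
        obtain ⟨h, hh, hjH⟩ := hjF'
        have hhF' : h ∈ F' := by
          rw [hFH, Finset.mem_biUnion]
          exact ⟨h, hh, (hHh h hh).1⟩
        rw [hF', Finset.mem_filter] at hhF'
        obtain ⟨-, l, hl⟩ := hhF'
        have hle := (hHh h hh).2.1 j hjH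
        have hlk : l < k := by
          by_contra hcon
          rcases Nat.lt_or_ge k l with h3 | h3
          · have := lt_of_lt hjA hl h3
            omega
          · have : l = k := by omega
            subst this
            exact hkR ⟨h, hh, hl⟩
        exact ⟨h, hh, hjH, l, hlk, (mem_A.1 hl).2⟩
      rcases Nat.eq_zero_or_pos k with rfl | hkpos
      · have h3 : c 0 = 0 := by
          rw [hc]
          refine Finset.card_eq_zero.2 (Finset.eq_empty_of_forall_notMem fun j hj => ?_)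
          obtain ⟨h, -, -, l, hl, -⟩ := key j hj
          omega
        rw [h3, Nat.cast_zero, zero_div]
        positivity
      · obtain ⟨l, rfl⟩ : ∃ l, k = l + 1 := ⟨k - 1, by omega⟩
        have h3 : c (l + 1) ≤ (2 * m l + 1) ^ 2 := by
          rw [hc]
          have h4 : F.filter (· ∈ A (l + 1)) ⊆
              (range (2 * m l + 1)).biUnion (fun h => if h ∈ R then H h else ∅) := by
            intro j hj
            obtain ⟨h, hh, hjH, l', hl', hle⟩ := key j hj
            rw [Finset.mem_biUnion]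
            refine ⟨h, Finset.mem_range.2 ?_, ?_⟩
            · have h5 : m l' ≤ m l := m_mono.monotone (by omega)
              omega
            · rw [if_pos hh]
              exact hjH
          refine (Finset.card_le_card h4).trans (Finset.card_biUnion_le.trans ?_)
          have h5 : ∀ h ∈ range (2 * m l + 1), (if h ∈ R then H h else ∅).card ≤ 2 * m l + 1 := by
            intro h hh
            have h6 := Finset.mem_range.1 hh
            split_ifs with h7
            · have := (hHh h h7).2.2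
              omega
            · rw [Finset.card_empty]
              omega
          refine (Finset.sum_le_card_nsmul _ _ _ h5).trans (le_of_eq ?_)
          rw [Finset.card_range, smul_eq_mul]
          ring
        have h4 : (c (l + 1) : ℝ) ≤ (2 * (m l : ℝ) + 1) ^ 2 := by exact_mod_cast h3
        exact (div_le_div_of_nonneg_right h4 (by positivity)).trans (num l)
    refine (Finset.sum_le_sum hterm).trans ?_
    rw [← Finset.sum_mul]
    have h3 : ∑ k ∈ (range N).filter (fun k => ¬ ∃ h ∈ R, h ∈ A k), (1 / 2 : ℝ) ^ (k + 1) ≤ 1 := by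
      calc ∑ k ∈ (range N).filter (fun k => ¬ ∃ h ∈ R, h ∈ A k), (1 / 2 : ℝ) ^ (k + 1)
          ≤ ∑ k ∈ range N, (1 / 2 : ℝ) ^ (k + 1) :=
            Finset.sum_le_sum_of_subset_of_nonneg (Finset.filter_subset _ _) fun _ _ _ => by positivity
        _ = (1 / 2) * ∑ k ∈ range N, (1 / 2 : ℝ) ^ k := by
            rw [Finset.mul_sum]
            exact Finset.sum_congr rfl fun k _ => by rw [pow_succ]; ring
        _ ≤ (1 / 2) * 2 := mul_le_mul_of_nonneg_left (sum_geometric_two_le N) (by norm_num)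
        _ = 1 := by norm_num
    calc _ ≤ 1 * C := mul_le_mul_of_nonneg_right h3 hC
      _ = C := one_mul C
  linarith

end Pool.Agent.X134.SS
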